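import Pool.Agent.H717.PM.Stm

/-!
# PM717: certificates as lists
-/

set_option autoImplicit false

namespace Pool.Agent.H75.PM

open Pool.Agent.H717.PM Pool.Agent.NPC Pool.Agent.H622R2

/-- the matrix of a function -/
def mat (n : ℕ) (f : ℕ → ℕ → ℕ) : List (List ℕ) :=
  (List.range n).map fun x => (List.range n).map fun y => f x y

theorem ent_mat {n : ℕ} (f : ℕ → ℕ → ℕ) {x y : ℕ} (hx : x < n) (hy : y < n) :
    ent (mat n f) x y = f x y := by
  simp [ent, mat, List.getD_eq_getElem?_getD, hx, hy]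

theorem mat_length (n : ℕ) (f : ℕ → ℕ → ℕ) : (mat n f).length = n := by
  simp [mat]

theorem mat_rows {n b : ℕ} {f : ℕ → ℕ → ℕ} (hf : ∀ x y, f x y ≤ b) :
    ∀ l ∈ mat n f, l.length = n ∧ ∀ a ∈ l, a ≤ b := by
  intro l hl
  obtain ⟨x, -, rfl⟩ := List.mem_map.1 hl
  refine ⟨by simp, fun a ha => ?_⟩
  obtain ⟨y, -, rfl⟩ := List.mem_map.1 ha
  exact hf x y

theorem okD_mat {n : ℕ} {f : ℕ → ℕ → ℕ} (h : TM n (fun x y => (f x y : ℝ))) :
    okD n (mat n f) = true := by
  simp only [okD, List.all_eq_true, List.mem_range, Bool.and_eq_true, Bool.or_eq_true,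
    decide_eq_true_eq]
  intro x hx
  refine ⟨?_, fun y hy => ⟨?_, fun z hz w hw => ?_⟩⟩
  · rw [ent_mat f hx hx]
    exact_mod_cast h.diag x hx
  · rw [ent_mat f hx hy, ent_mat f hy hx]
    exact_mod_cast h.symm x hx y hy
  · rw [ent_mat f hx hy, ent_mat f hz hw, ent_mat f hx hz, ent_mat f hy hw, ent_mat f hx hw,
      ent_mat f hy hz]
    exact_mod_cast h.four x hx y hy z hz w hw

theorem inI_mat {n : ℕ} (f : ℕ → ℕ → ℕ) (a b : ℕ) {x y : ℕ} (hx : x < n) (hy : y < n) :
    inI (mat n f, (a, b)) x y = true ↔ (a : ℝ) ≤ (f x y : ℝ) ∧ (f x y : ℝ) ≤ (b : ℝ) := by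
  simp only [inI, Bool.and_eq_true, decide_eq_true_eq, ent_mat f hx hy, Nat.cast_le]

theorem bnd_mono (n : ℕ) {k l : ℕ} (h : k ≤ l) : bnd n k ≤ bnd n l := by
  unfold bnd
  have h1 : k * (n * n + 2) ≤ l * (n * n + 2) := Nat.mul_le_mul_right _ h
  exact Nat.mul_le_mul (Nat.factorial_le h1) (Nat.pow_le_pow_right (by norm_num) h1)

/-- the certificate -/
def crt (n k : ℕ) (D : ℕ → ℕ → ℕ → ℕ) (lo hi : ℕ → ℕ) : Crt :=
  (List.range k).map fun i => (mat n (D i), (lo i, hi i))

theorem crt_bd {n k b : ℕ} {D : ℕ → ℕ → ℕ → ℕ} {lo hi : ℕ → ℕ}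
    (h : ∀ i, lo i ≤ b ∧ hi i ≤ b ∧ ∀ x y, D i x y ≤ b) :
    ∀ e ∈ crt n k D lo hi, e.1.length = n ∧ (∀ l ∈ e.1, l.length = n ∧ ∀ a ∈ l, a ≤ b) ∧
      e.2.1 ≤ b ∧ e.2.2 ≤ b := by
  intro e he
  obtain ⟨i, -, rfl⟩ := List.mem_map.1 he
  exact ⟨mat_length _ _, mat_rows (h i).2.2, (h i).1, (h i).2.1⟩

theorem crt_ok {n k : ℕ} {D : ℕ → ℕ → ℕ → ℕ} {lo hi : ℕ → ℕ}
    (h : ∀ i < k, TM n (fun x y => (D i x y : ℝ))) :
    ((crt n k D lo hi).all fun e => okD n e.1) = true := by
  rw [List.all_eq_true]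
  intro e he
  obtain ⟨i, hi, rfl⟩ := List.mem_map.1 he
  exact okD_mat (h i (List.mem_range.1 hi))

theorem t_compl (h1 : S_selOr) (h2 : S_selAnd) (h3 : S_selInt) (h4 : S_natOr) (h5 : S_natAnd)
    (h6 : S_natInt) : S_compl := by
  refine ⟨fun I hI => ?_, fun I hI => ?_, fun I hI => ?_⟩
  · obtain ⟨hn, k, hk1, hkI, hkn, D, lo, hi, hR⟩ := h1 I hI
    obtain ⟨D', lo', hi', hR', hb⟩ := h4 _ _ _ _ _ hR
    have hlen : (crt I.1.length k D' lo' hi').length = k := by simp [crt]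
    have hbm := bnd_mono I.1.length hkn
    refine ⟨crt I.1.length k D' lo' hi', ?_, by rw [hlen]; exact hkn, crt_bd fun i =>
      ⟨(hb i).1.trans hbm, (hb i).2.1.trans hbm, fun x y => ((hb i).2.2 x y).trans hbm⟩⟩
    have hadj : ∀ x < I.1.length, ∀ y < I.1.length, x ≠ y →
        adjM I.1 x y = ((crt I.1.length k D' lo' hi').any fun e => inI e x y) := by
      intro x hx y hy hne
      rw [Bool.eq_iff_iff, hR'.2.2 x hx y hy hne, List.any_eq_true]
      constructor
      · rintro ⟨i, hi, h⟩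
        exact ⟨_, List.mem_map.2 ⟨i, List.mem_range.2 hi, rfl⟩, (inI_mat _ _ _ hx hy).2 h⟩
      · rintro ⟨e, he, h⟩
        obtain ⟨i, hi, rfl⟩ := List.mem_map.1 he
        exact ⟨i, List.mem_range.1 hi, (inI_mat _ _ _ hx hy).1 h⟩
    simp only [chkOr, Bool.and_eq_true, Bool.or_eq_true, Bool.not_eq_true', decide_eq_true_eq,
      decide_eq_false_iff_not, hlen, List.all_eq_true (l := List.range I.1.length),
      List.mem_range]
    refine ⟨⟨hI.1, hn⟩, by omega, hkI, crt_ok hR'.1, fun x hx y hy => ?_⟩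
    by_cases hxy : x = y
    · exact Or.inl hxy
    · exact Or.inr (hadj x hx y hy hxy)
  · obtain ⟨hn, k, hk1, hkI, hkn, D, lo, hi, hR⟩ := h2 I hI
    obtain ⟨D', lo', hi', hR', hb⟩ := h5 _ _ _ _ _ hR
    have hlen : (crt I.1.length k D' lo' hi').length = k := by simp [crt]
    have hbm := bnd_mono I.1.length hkn
    refine ⟨crt I.1.length k D' lo' hi', ?_, by rw [hlen]; exact hkn, crt_bd fun i =>
      ⟨(hb i).1.trans hbm, (hb i).2.1.trans hbm, fun x y => ((hb i).2.2 x y).trans hbm⟩⟩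
    have hadj : ∀ x < I.1.length, ∀ y < I.1.length, x ≠ y →
        adjM I.1 x y = ((crt I.1.length k D' lo' hi').all fun e => inI e x y) := by
      intro x hx y hy hne
      rw [Bool.eq_iff_iff, hR'.2.2 x hx y hy hne, List.all_eq_true]
      constructor
      · intro h e he
        obtain ⟨i, hi, rfl⟩ := List.mem_map.1 he
        exact (inI_mat _ _ _ hx hy).2 (h i (List.mem_range.1 hi))
      · intro h i hi
        exact (inI_mat _ _ _ hx hy).1 (h _ (List.mem_map.2 ⟨i, List.mem_range.2 hi, rfl⟩))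
    simp only [chkAnd, Bool.and_eq_true, Bool.or_eq_true, Bool.not_eq_true', decide_eq_true_eq,
      decide_eq_false_iff_not, hlen, List.all_eq_true (l := List.range I.1.length),
      List.mem_range]
    refine ⟨⟨hI.1, hn⟩, by omega, hkI, crt_ok hR'.1, fun x hx y hy => ?_⟩
    by_cases hxy : x = y
    · exact Or.inl hxy
    · exact Or.inr (hadj x hx y hy hxy)
  · obtain ⟨hn, k, hkI, hkn, D, lo, hi, hR⟩ := h3 I hI
    obtain ⟨D', lo', hi', hR', hb, hbD⟩ := h6 _ _ _ _ _ hR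
    obtain ⟨ls, hls⟩ : ∃ ls, ls = (List.range k).map fun i => (lo' i, hi' i) := ⟨_, rfl⟩
    have hlen : ls.length = k := by simp [hls]
    have hget : ∀ i < k, ls.getD i (0, 0) = (lo' i, hi' i) := by
      intro i hi
      simp [hls, List.getD_eq_getElem?_getD, hi]
    have hbm : bnd I.1.length (k + 1) ≤ bnd I.1.length (I.1.length * I.1.length + 2) :=
      bnd_mono I.1.length (by omega)
    refine ⟨(mat I.1.length D', ls), ?_, by rw [hlen]; exact hkn, mat_length _ _,
      mat_rows fun x y => (hbD x y).trans hbm, fun e he => ?_⟩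
    · have hadj : ∀ x < I.1.length, ∀ y < I.1.length, x ≠ y →
          adjM I.1 x y = (ls.any fun e => inI (mat I.1.length D', e) x y) := by
        intro x hx y hy hne
        rw [Bool.eq_iff_iff, hR'.2.2.2 x hx y hy hne, List.any_eq_true]
        constructor
        · rintro ⟨i, hi, h⟩
          refine ⟨(lo' i, hi' i), ?_, (inI_mat _ _ _ hx hy).2 h⟩
          rw [hls]
          exact List.mem_map.2 ⟨i, List.mem_range.2 hi, rfl⟩
        · rintro ⟨e, he, h⟩
          rw [hls] at he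
          obtain ⟨i, hi, rfl⟩ := List.mem_map.1 he
          exact ⟨i, List.mem_range.1 hi, (inI_mat _ _ _ hx hy).1 h⟩
      simp only [chkInt, Bool.and_eq_true, Bool.or_eq_true, Bool.not_eq_true', decide_eq_true_eq,
        decide_eq_false_iff_not, hlen, List.all_eq_true, List.mem_range]
      refine ⟨⟨hI.1, hn⟩, okD_mat hR'.1, hkI, fun i hi j hj => ?_, fun x hx y hy => ?_⟩
      · by_cases hij : i = j
        · exact Or.inl hij
        · rw [hget i hi, hget j hj]
          right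
          rcases hR'.2.2.1 i hi j hj hij with h | h
          · exact Or.inl (Nat.cast_lt.1 h)
          · exact Or.inr (Nat.cast_lt.1 h)
      · by_cases hxy : x = y
        · exact Or.inl hxy
        · exact Or.inr (hadj x hx y hy hxy)
    · have he' : e ∈ ls := he
      rw [hls] at he'
      obtain ⟨i, -, rfl⟩ := List.mem_map.1 he'
      exact ⟨(hb i).1.trans hbm, (hb i).2.trans hbm⟩

end Pool.Agent.H75.PM
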